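import Mathlib
import Pool.Agent.Lib.helper21.PR

namespace Pool.Agent.H.MP_51e3d2_lc

open Filter Pool.Agent.Lib.helper21.PR
open scoped Classical

/-- formulas: variables, bottom, three binary connectives -/
inductive Fm (α : Type)
  | var (a : α)
  | bot
  | op (k : Fin 3) (φ ψ : Fm α)

variable {α β B : Type}

/-- substitution -/
def Fm.sub (σ : α → Fm β) : Fm α → Fm β
  | var a => σ a
  | bot => bot
  | op k φ ψ => op k (φ.sub σ) (ψ.sub σ)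

/-- value under a valuation -/
def Fm.ev (o : Fin 3 → B → B → B) (b : B) (v : α → B) : Fm α → B
  | var a => v a
  | bot => b
  | op k φ ψ => o k (φ.ev o b v) (ψ.ev o b v)

/-- deductive system, given by its derivable rules -/
def Sys (D : List (Fm ℕ) → Fm ℕ → Prop) : Prop :=
  (∀ Γ φ, φ ∈ Γ → D Γ φ) ∧ (∀ Γ Δ φ, (∀ ψ ∈ Δ, D Γ ψ) → D Δ φ → D Γ φ) ∧ ∀ (σ : ℕ → Fm ℕ) Γ φ, D Γ φ → D (Γ.map (·.sub σ)) (φ.sub σ)

/-- admissible rule, for the set of theorems `L` -/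
def Adm (L : Fm ℕ → Prop) (Γ : List (Fm ℕ)) (φ : Fm ℕ) : Prop := ∀ σ : ℕ → Fm ℕ, (∀ ψ ∈ Γ, L (ψ.sub σ)) → L (φ.sub σ)

/-- hereditarily structurally complete -/
def HSC (D₀ : List (Fm ℕ) → Fm ℕ → Prop) : Prop :=
  ∀ D, Sys D → (∀ Γ φ, D₀ Γ φ → D Γ φ) → ∀ Γ φ, Adm (D []) Γ φ → D Γ φ

variable {o : Fin 3 → B → B → B} {b t : B}

theorem ev_sub (σ : α → Fm β) (v : β → B) (φ : Fm α) : (φ.sub σ).ev o b v = φ.ev o b fun a => (σ a).ev o b v := by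
  induction φ <;> simp [Fm.sub, Fm.ev, *]

theorem sub_sub {γ : Type} (σ : α → Fm β) (τ : β → Fm γ) (φ : Fm α) : (φ.sub σ).sub τ = φ.sub fun a => (σ a).sub τ := by
  induction φ <;> simp [Fm.sub, *]

def Mat (o : Fin 3 → B → B → B) (b t : B) (Γ : List (Fm ℕ)) (φ : Fm ℕ) : Prop := ∀ v, (∀ ψ ∈ Γ, ψ.ev o b v = t) → φ.ev o b v = t

def Cr (o : Fin 3 → B → B → B) (b t : B) (N : ℕ) : Prop := ∀ S : Set (Fin N → B), ∀ v ∈ S, ∀ u : Fm (Fin N), u.ev o b v ≠ t → ∃ σ : Fin N → Fm (Fin N),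
  (∀ s ∈ S, ∀ w : Fm (Fin N), w.ev o b v = t → w.ev o b (fun j => (σ j).ev o b s) = t) ∧ ∃ s ∈ S, u.ev o b (fun j => (σ j).ev o b s) ≠ t

def up {k : ℕ} (φ : Fm (Fin k)) : Fm ℕ := φ.sub fun j => .var j.1

theorem ev_up {k} (φ : Fm (Fin k)) (v : ℕ → B) : (up φ).ev o b v = φ.ev o b fun j => v j.1 := ev_sub ..

theorem ex_up (φ : Fm ℕ) : ∀ᶠ k in atTop, ∃ χ : Fm (Fin k), up χ = φ := by
  induction φ with
  | var a => filter_upwards [eventually_gt_atTop a] with k h using ⟨.var ⟨a, h⟩, rfl⟩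
  | bot => exact .of_forall fun _ => ⟨.bot, rfl⟩
  | op k φ ψ h i => filter_upwards [h, i] with _ ⟨x, h⟩ ⟨y, i⟩ using ⟨.op k x y, h ▸ i ▸ rfl⟩

theorem reps [Finite B] {k} (P : Fm (Fin k) → Prop) : ∃ Δ : List (Fm (Fin k)), (∀ ψ ∈ Δ, P ψ) ∧
    ∀ v, (∀ ψ ∈ Δ, ψ.ev o b v = t) → ∀ ψ, P ψ → ψ.ev o b v = t := by
  obtain ⟨s, a, c, d⟩ := (Set.toFinite ((fun (ψ : Fm (Fin k)) v => ψ.ev o b v) '' {ψ | P ψ})).exists_subset_finite_image_eq (f := fun (ψ : Fm (Fin k)) v => ψ.ev o b v) le_rfl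
  refine ⟨c.toFinset.toList, fun ψ h => a (by simpa using h), fun v h ψ i => ?_⟩
  obtain ⟨χ, j, e⟩ := d.ge ⟨ψ, i, rfl⟩
  exact (congrFun e v).symm.trans (h χ (by simpa))

theorem hsc_iff [Finite B] {N} {e : B → Fin N} (he : Function.Injective e) : HSC (Mat o b t) ↔ Cr o b t N := by
  refine ⟨fun h S v hv u hu => by_contra fun n => ?_, fun h D ⟨d1, d2, d3⟩ d0 Γ φ ad => by_contra fun n => ?_⟩
  · let V := fun (S : Set (Fin N → B)) (Γ : List (Fm ℕ)) (φ : Fm ℕ) => ∀ σ : ℕ → Fm (Fin N),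
      (∀ ψ ∈ Γ, ∀ s ∈ S, (ψ.sub σ).ev o b s = t) → ∀ s ∈ S, (φ.sub σ).ev o b s = t
    obtain ⟨Δ, a, c⟩ := reps (o := o) (b := b) (t := t) fun w : Fm (Fin N) => w.ev o b v = t
    have := (h (fun Γ φ => V S Γ φ ∧ V {v} Γ φ) ⟨fun Γ φ i => ⟨fun σ j => j φ i, fun σ j => j φ i⟩, fun Γ Δ φ i j =>
      ⟨fun σ k => j.1 σ fun ψ l => (i ψ l).1 σ k, fun σ k => j.2 σ fun ψ l => (i ψ l).2 σ k⟩, fun σ Γ φ i => ⟨fun τ j => ?_, fun τ j => ?_⟩⟩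
      (fun Γ φ i => ⟨fun σ j s k => ?_, fun σ j s k => ?_⟩) (Δ.map up) (up u) fun σ i => ?_).2 (fun j => if h : j < N then .var ⟨j, h⟩ else .bot)
      (by simpa [ev_sub, ev_up, Fm.ev] using a) v rfl
    · exact hu (by simpa [ev_sub, ev_up, Fm.ev] using this)
    · rw [sub_sub]; exact i.1 _ (by simpa [sub_sub] using j)
    · rw [sub_sub]; exact i.2 _ (by simpa [sub_sub] using j)
    · rw [ev_sub]; exact i _ fun ψ l => by simpa [ev_sub] using j ψ l s k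
    · rw [ev_sub]; exact i _ fun ψ l => by simpa [ev_sub] using j ψ l s k
    suffices V S [] _ from ⟨this, fun τ _ s k => k ▸ this τ (by simp) v hv⟩
    intro τ _ s k
    by_contra l
    refine n ⟨fun j => (σ j).sub τ, fun s k => c _ fun ψ m => ?_, s, k, by simpa [ev_sub, ev_up] using l⟩
    simpa [ev_sub, ev_up] using (i _ (List.mem_map_of_mem m)).1 τ (by simp) s k
  have sp : ∀ Γ {k} (χ : Fm (Fin k)), (∀ a, (∀ ψ : Fm (Fin k), D Γ (up ψ) → ψ.ev o b a = t) → χ.ev o b a = t) → D Γ (up χ) := fun Γ k χ i => by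
    obtain ⟨Δ, a, c⟩ := reps (o := o) (b := b) (t := t) fun ψ : Fm (Fin k) => D Γ (up ψ)
    exact d2 _ (Δ.map up) _ (by simpa using a) (d0 _ _ fun v j => (ev_up ..).trans (i _ (c _ (by simpa [ev_up] using j))))
  obtain ⟨k, ⟨χ, rfl⟩, hk⟩ := ((ex_up φ).and ((eventually_all_finite Γ.finite_toSet).2 fun ψ _ => ex_up ψ)).exists
  obtain ⟨a, a1, a2⟩ : ∃ a, (∀ ψ : Fm (Fin k), D Γ (up ψ) → ψ.ev o b a = t) ∧ χ.ev o b a ≠ t := by simpa using mt (sp Γ χ) n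
  have : Nonempty (Fm (Fin k)) := ⟨.bot⟩
  let w := fun j : Fin N => Classical.epsilon (α := Fm (Fin k)) fun u => e (u.ev o b a) = j
  have wz : ∀ i, (w (e (a i))).ev o b a = a i := fun i => he (Classical.epsilon_spec (p := fun u : Fm (Fin k) => e (u.ev o b a) = e (a i)) ⟨.var i, rfl⟩)
  obtain ⟨σ, s1, s, s2, s3⟩ := h {s | ∀ ψ : Fm (Fin N), D [] (up ψ) → ψ.ev o b s = t} (fun j => (w j).ev o b a) (fun ψ i => by
    rw [← ev_sub]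
    refine a1 _ (d2 _ [] _ (by simp) ?_)
    simpa [up, sub_sub, Fm.sub] using d3 (fun j => if h : j < N then up (w ⟨j, h⟩) else .bot) _ _ i) (χ.sub fun i => .var (e (a i)))
    (by simpa [ev_sub, Fm.ev, wz] using a2)
  have z : ∀ χ : Fm (Fin k), (up χ).sub (fun j => if h : j < k then up (σ (e (a ⟨j, h⟩))) else .bot) = up (χ.sub fun i => σ (e (a i))) := fun χ => by
    simp [up, sub_sub, Fm.sub]
  simp only [ev_sub, Fm.ev] at s3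
  refine s3 ((ev_sub ..).symm.trans (s2 _ (z χ ▸ ad _ fun ψ i => ?_)))
  obtain ⟨ψ, rfl⟩ := hk ψ i
  rw [z]
  exact sp _ _ fun s j => by simpa [ev_sub, Fm.ev] using s1 s j (ψ.sub fun i => .var (e (a i))) (by simpa [ev_sub, Fm.ev, wz] using a1 ψ (d1 _ _ i))

def dg (b x i : ℕ) : ℕ := x / b ^ i % b

theorem dg_ex (b m : ℕ) (g : ℕ → ℕ) (h : ∀ i < m, g i < b) : ∃ x < b ^ m, ∀ i < m, dg b x i = g i :=
  ⟨_, (finFunctionFinEquiv fun i : Fin m => (⟨g i, h i i.2⟩ : Fin b)).2, fun i k => by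
    rw [dg, ← finFunctionFinEquiv_symm_apply_val _ ⟨i, k⟩, Equiv.symm_apply_apply]⟩

theorem dg_inj {b m x y : ℕ} (hx : x < b ^ m) (hy : y < b ^ m) (h : ∀ i < m, dg b x i = dg b y i) : x = y :=
  congrArg Fin.val (finFunctionFinEquiv.symm.injective (a₁ := ⟨x, hx⟩) (a₂ := ⟨y, hy⟩) (funext fun i => Fin.ext (h i i.2)))

theorem bit_ex (m : ℕ) (P : ℕ → Prop) : ∃ x < 2 ^ m, ∀ i < m, (dg 2 x i = 1 ↔ P i) :=
  (dg_ex 2 m (fun i => if P i then 1 else 0) fun i _ => by split_ifs <;> omega).imp fun x h => ⟨h.1, fun i k => by simp [h.2 i k]⟩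

def TF (N : ℕ) (M Bt : ℕ → Prop) (R : ℕ → ℕ → ℕ → ℕ → Prop) (f : ℕ) : Prop := ∀ U < 2 ^ N ^ N ^ N,
  (∀ f < N ^ N ^ N, ∀ j < N, (∀ i < N ^ N, (∀ j < N, M (dg N i j)) → dg N f i = dg N i j) → dg 2 U f = 1) →
  (∀ f < N ^ N ^ N, (∀ i < N ^ N, (∀ j < N, M (dg N i j)) → Bt (dg N f i)) → dg 2 U f = 1) →
  (∀ k < 3, ∀ f < N ^ N ^ N, ∀ g < N ^ N ^ N, ∀ h < N ^ N ^ N, dg 2 U f = 1 → dg 2 U g = 1 →
    (∀ i < N ^ N, (∀ j < N, M (dg N i j)) → R k (dg N f i) (dg N g i) (dg N h i)) → dg 2 U h = 1) → dg 2 U f = 1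

def CN (N : ℕ) (M T Tp : ℕ → Prop) : Prop := ∀ S < 2 ^ N ^ N, ∀ v < N ^ N, (∀ j < N, M (dg N v j)) → dg 2 S v = 1 →
  ∀ u < N ^ N ^ N, T u → ¬ Tp (dg N u v) → ∃ σ < (N ^ N ^ N) ^ N, (∀ j < N, T (dg (N ^ N ^ N) σ j)) ∧
    (∀ s < N ^ N, (∀ j < N, M (dg N s j)) → dg 2 S s = 1 → ∀ p < N ^ N, (∀ j < N, dg N p j = dg N (dg (N ^ N ^ N) σ j) s) →
      ∀ w < N ^ N ^ N, T w → Tp (dg N w v) → Tp (dg N w p)) ∧
    ∃ s < N ^ N, (∀ j < N, M (dg N s j)) ∧ dg 2 S s = 1 ∧ ∃ p < N ^ N, (∀ j < N, dg N p j = dg N (dg (N ^ N ^ N) σ j) s) ∧ ¬ Tp (dg N u p)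

section
variable {N : ℕ} {e : B → Fin N} (he : Function.Injective e) {M Bt Tp : ℕ → Prop} {R : ℕ → ℕ → ℕ → ℕ → Prop}
  (hM : ∀ x < N, M x ↔ ∃ y, (e y).1 = x) (hB : ∀ x < N, Bt x ↔ x = e b) (hT : ∀ y, Tp (e y) ↔ y = t)
  (hR : ∀ (k : Fin 3) x y, ∀ z < N, R k (e x) (e y) z ↔ z = e (o k x y))

def Rp (o : Fin 3 → B → B → B) (b : B) (e : B → Fin N) (f : ℕ) (u : Fm (Fin N)) : Prop :=
  ∀ i < N ^ N, ∀ s : Fin N → B, (∀ j : Fin N, dg N i j = e (s j)) → dg N f i = e (u.ev o b s)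

include he in
theorem rp_ex (u : Fm (Fin N)) : ∃ f < N ^ N ^ N, Rp o b e f u := by
  obtain ⟨f, a, c⟩ := dg_ex N (N ^ N) (fun i => if h : ∃ s : Fin N → B, ∀ j : Fin N, dg N i j = e (s j) then e (u.ev o b h.choose) else e b)
    fun i _ => by split_ifs <;> exact Fin.is_lt _
  refine ⟨f, a, fun i d s g => ?_⟩
  have : ∃ s : Fin N → B, ∀ j : Fin N, dg N i j = e (s j) := ⟨s, g⟩
  rw [c i d, dif_pos this, show this.choose = s from funext fun j => he (Fin.ext ((this.choose_spec j).symm.trans (g j)))]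

theorem as_ex (s : Fin N → B) : ∃ i < N ^ N, ∀ j : Fin N, dg N i j = e (s j) :=
  (dg_ex N N (fun j => if h : j < N then e (s ⟨j, h⟩) else 0) fun j h => by simp [h]).imp fun _ h => ⟨h.1, fun j => by simp [h.2 j j.2]⟩

include hM in
theorem val_iff (i) : (∀ j < N, M (dg N i j)) ↔ ∃ s : Fin N → B, ∀ j : Fin N, dg N i j = e (s j) :=
  ⟨fun h => ⟨fun j => ((hM _ (Nat.mod_lt _ j.pos)).1 (h j j.2)).choose, fun j => ((hM _ (Nat.mod_lt _ j.pos)).1 (h j j.2)).choose_spec.symm⟩,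
    fun ⟨s, h⟩ j k => (hM _ (Nat.mod_lt _ (by omega))).2 ⟨_, (h ⟨j, k⟩).symm⟩⟩

include he hM hB hR in
theorem tf_iff {f} (hf : f < N ^ N ^ N) : TF N M Bt R f ↔ ∃ u, Rp o b e f u := by
  have l : ∀ x i, dg N x i < N := fun x i => Nat.mod_lt _ (e b).pos
  simp only [TF, val_iff hM, forall_exists_index]
  constructor
  · intro h
    obtain ⟨U, a, c⟩ := bit_ex (N ^ N ^ N) fun f => ∃ u, Rp o b e f u
    refine (c f hf).1 (h U a (fun f i j k m => (c f i).2 ⟨.var ⟨j, k⟩, fun i d s g => (m i d s g).trans (g ⟨j, k⟩)⟩)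
      (fun f i m => (c f i).2 ⟨.bot, fun i d s g => (hB _ (l ..)).1 (m i d s g)⟩) fun k k3 f f1 g g1 h h1 f2 g2 m => ?_)
    obtain ⟨x, f2⟩ := (c f f1).1 f2
    obtain ⟨y, g2⟩ := (c g g1).1 g2
    exact (c h h1).2 ⟨.op ⟨k, k3⟩ x y, fun i d s p => (hR ⟨k, k3⟩ _ _ _ (l ..)).1 (f2 i d s p ▸ g2 i d s p ▸ m i d s p)⟩
  · rintro ⟨u, h⟩ U - a c d
    induction u generalizing f with
    | var j => exact a f hf j j.2 fun i k s m => (h i k s m).trans (m j).symm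
    | bot => exact c f hf fun i k s m => (hB _ (l ..)).2 (h i k s m)
    | op k x y i j =>
      obtain ⟨g, g1, g2⟩ := rp_ex (o := o) (b := b) he x
      obtain ⟨g', g1', g2'⟩ := rp_ex (o := o) (b := b) he y
      exact d k k.2 g g1 g' g1' f hf (i g1 g2) (j g1' g2') fun i k s m => by rw [g2 i k s m, g2' i k s m, hR _ _ _ _ (l ..)]; exact h i k s m

include he hM hB hR hT in
theorem cn_iff : CN N M (TF N M Bt R) Tp ↔ Cr o b t N := by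
  have tf := fun f => tf_iff (f := f) he hM hB hR
  have l : ∀ x i, dg (N ^ N ^ N) x i < N ^ N ^ N := fun x i => Nat.mod_lt _ (pow_pos (e b).pos _)
  simp only [CN, val_iff hM, forall_exists_index]
  refine ⟨fun h S v hv u hu => ?_, fun h S _ v v1 v' v2 v3 u u1 u2 u3 => ?_⟩
  · obtain ⟨S', a, c⟩ := bit_ex (N ^ N) fun i => ∃ s ∈ S, ∀ j : Fin N, dg N i j = e (s j)
    obtain ⟨i, i1, i2⟩ := as_ex (e := e) v
    obtain ⟨f, f1, f2⟩ := rp_ex (o := o) (b := b) he u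
    obtain ⟨σ, -, s1, s2, s, s3, -, s4, p, p1, p2, p3⟩ := h S' a i i1 v i2 ((c i i1).2 ⟨v, hv, i2⟩) f f1 ((tf f f1).2 ⟨u, f2⟩) (by rwa [f2 i i1 v i2, hT])
    choose τ hτ using fun j : Fin N => (tf _ (l ..)).1 (s1 j j.2)
    obtain ⟨s', s5, s6⟩ := (c s s3).1 s4
    refine ⟨τ, fun s k w m => ?_, s', s5, by rwa [f2 p p1 _ fun j => (p2 j j.2).trans (hτ j s s3 s' s6), hT] at p3⟩
    obtain ⟨q, q1, q2⟩ := as_ex (e := e) s
    obtain ⟨r, r1, r2⟩ := as_ex (e := e) fun j => (τ j).ev o b s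
    obtain ⟨g, g1, g2⟩ := rp_ex (o := o) (b := b) he w
    have := s2 q q1 s q2 ((c q q1).2 ⟨s, k, q2⟩) r r1 (fun j k => (r2 ⟨j, k⟩).trans (hτ ⟨j, k⟩ q q1 s q2).symm) g g1 ((tf g g1).2 ⟨w, g2⟩)
      (by rwa [g2 i i1 v i2, hT])
    rwa [g2 r r1 _ r2, hT] at this
  obtain ⟨x, hx⟩ := (tf u u1).1 u2
  obtain ⟨τ, t1, s, ⟨q, q1, q2, q3⟩, t2⟩ := h {s | ∃ i < N ^ N, dg 2 S i = 1 ∧ ∀ j : Fin N, dg N i j = e (s j)} v' ⟨v, v1, v3, v2⟩ x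
    (by rwa [hx v v1 v' v2, hT] at u3)
  choose g g1 g2 using fun j => rp_ex (o := o) (b := b) he (τ j)
  obtain ⟨σ, s1, s2⟩ := dg_ex (N ^ N ^ N) N (fun j => if h : j < N then g ⟨j, h⟩ else 0) fun j h => by simp [h, g1]
  have s3 : ∀ j : Fin N, dg (N ^ N ^ N) σ j = g j := fun j => by simp [s2 j j.2]
  obtain ⟨r, r1, r2⟩ := as_ex (e := e) fun j => (τ j).ev o b s
  refine ⟨σ, s1, fun j k => (tf _ (l ..)).2 ⟨_, s3 ⟨j, k⟩ ▸ g2 ⟨j, k⟩⟩, fun s a s' c d p p1 p2 w w1 w2 w3 => ?_, q, q1, ⟨s, q3⟩, q2, r, r1,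
    fun j k => (r2 ⟨j, k⟩).trans (s3 ⟨j, k⟩ ▸ (g2 ⟨j, k⟩ q q1 s q3).symm), by rwa [hx r r1 _ r2, hT]⟩
  obtain ⟨y, hy⟩ := (tf w w1).1 w2
  rw [hy p p1 _ fun j => (p2 j j.2).trans (s3 j ▸ g2 j s a s' c), hT]
  exact t1 s' ⟨s, a, d, c⟩ y (by rwa [hy v v1 v' v2, hT] at w3)

end

attribute [local irreducible] Primrec

variable {γ : Type} [Primcodable γ]

@[fun_prop] theorem p_dg {f g h : γ → ℕ} (hf : Primrec f) (hg : Primrec g) (hh : Primrec h) : Primrec fun a => dg (f a) (g a) (h a) := by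
  unfold dg
  fun_prop

attribute [local irreducible] dg

variable {N : γ → ℕ} (hN : Primrec N) {M Bt T Tp : γ → ℕ → Bool} {R : γ → ℕ → ℕ → ℕ → ℕ → Bool} (hM : Primrec fun p : γ × ℕ => M p.1 p.2)
include hN hM

theorem pr_TF (hB : Primrec fun p : γ × ℕ => Bt p.1 p.2) (hR : Primrec fun p : γ × ℕ × ℕ × ℕ × ℕ => R p.1 p.2.1 p.2.2.1 p.2.2.2.1 p.2.2.2.2) :
    Primrec fun p : γ × ℕ => cd (TF (N p.1) (M p.1 · = true) (Bt p.1 · = true) (R p.1 · · · · = true) p.2) := by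
  unfold TF
  fun_prop

theorem pr_CN (hT : Primrec fun p : γ × ℕ => T p.1 p.2) (hP : Primrec fun p : γ × ℕ => Tp p.1 p.2) :
    Primrec fun p : γ => cd (CN (N p) (M p · = true) (T p · = true) (Tp p · = true)) := by
  unfold CN
  fun_prop

theorem pr_C (hB : Primrec fun p : γ × ℕ => Bt p.1 p.2) (hR : Primrec fun p : γ × ℕ × ℕ × ℕ × ℕ => R p.1 p.2.1 p.2.2.1 p.2.2.2.1 p.2.2.2.2)
    (hP : Primrec fun p : γ × ℕ => Tp p.1 p.2) : Primrec fun p : γ =>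
      cd (CN (N p) (M p · = true) (fun x => cd (TF (N p) (M p · = true) (Bt p · = true) (R p · · · · = true) x) = true) (Tp p · = true)) :=
  pr_CN hN hM (T := fun p x => cd (TF (N p) (M p · = true) (Bt p · = true) (R p · · · · = true) x)) (pr_TF hN hM hB hR) hP

end Pool.Agent.H.MP_51e3d2_lc
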