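import Mathlib
import Pool.Agent.H.MP_51e3d2_lc.A

namespace Pool.Agent.H.MP_51e3d2_lc

/-- meet, join, implication -/
def ops (A : Type) [HeytingAlgebra A] : Fin 3 → A → A → A := ![(· ⊓ ·), (· ⊔ ·), (· ⇨ ·)]

/-- size, the three operation tables, bottom and top of a Heyting algebra numbered by `e` -/
def tab {A : Type} [HeytingAlgebra A] {n : ℕ} (e : A ≃ Fin n) : ℕ × List (List (List ℕ)) × ℕ × ℕ :=
  (n, List.ofFn fun k => List.ofFn fun i => List.ofFn fun j => (e (ops A k (e.symm i) (e.symm j))).1, e ⊥, e ⊤)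

def tb (T : List (List (List ℕ))) (k x y : ℕ) : ℕ := ((T.getD k []).getD x []).getD y 0

theorem tb_tab {A : Type} [HeytingAlgebra A] {n : ℕ} (e : A ≃ Fin n) (k : Fin 3) (x y) : tb (tab e).2.1 k (e x) (e y) = e (ops A k x y) := by
  simp [tb, tab, -List.ofFn_succ]

end Pool.Agent.H.MP_51e3d2_lc
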